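import Pool.Agent.K3h53.UG.Stm2

/-!
# Project UG2 (helper53): bricks PIG and CHAIN
-/

set_option autoImplicit false

open MeasureTheory

namespace Pool.Agent.K3h51.UG

open Pool.Agent.K3h53.UG

theorem chain_aux {a b C : ℝ} (hC : 0 ≤ C) (_ : a ≤ b) (E : Finset ℝ)
    (h : Set.Icc a b ⊆ ⋃ e ∈ E, Set.Icc (e - C) (e + C)) : b - a ≤ 2 * C * E.card := by
  have h1 : volume (Set.Icc a b) ≤ ∑ e ∈ E, volume (Set.Icc (e - C) (e + C)) :=
    (measure_mono h).trans (measure_biUnion_finset_le _ _)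
  simp only [Real.volume_Icc] at h1
  have h2 : ∀ e : ℝ, e + C - (e - C) = 2 * C := fun e => by ring
  simp only [h2] at h1
  rw [← ENNReal.ofReal_sum_of_nonneg (fun _ _ => by positivity)] at h1
  rw [ENNReal.ofReal_le_ofReal_iff (Finset.sum_nonneg fun _ _ => by positivity)] at h1
  rw [Finset.sum_const, nsmul_eq_mul] at h1
  linarith

theorem t_CHAIN : S_CHAIN := by
  intro s Ω f E C hC hΩ hf hE w hw w' hw'
  have key : ∀ w ∈ Ω, ∀ w' ∈ Ω, f w ≤ f w' → f w' - f w ≤ 2 * C * E.card := by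
    intro w hw w' hw' hle
    apply chain_aux hC hle
    intro y hy
    obtain ⟨z, hz, rfl⟩ := hΩ.intermediate_value hw hw' hf hy
    obtain ⟨e, he, hez⟩ := hE z hz
    rw [abs_le] at hez
    simp only [Set.mem_iUnion]
    exact ⟨e, he, by constructor <;> linarith⟩
  rcases le_total (f w) (f w') with h | h
  · rw [abs_sub_comm, abs_of_nonneg (by linarith)]
    exact key w hw w' hw' h
  · rw [abs_of_nonneg (by linarith)]
    exact key w' hw' w hw h

theorem t_PIG : S_PIG := by
  intro s n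
  classical
  rcases Nat.eq_zero_or_pos s with rfl | hs
  · refine ⟨{0}, 0, le_refl _, Finset.singleton_nonempty _, fun _ _ => Or.inr rfl, ?_⟩
    intro x Y ε _ _ h
    obtain ⟨y, hy, _⟩ := h 0 (Finset.mem_singleton_self _)
    exact ⟨y, hy, fun j => j.elim0⟩
  let V : (Fin s → Fin (n * s + 1)) → Matrix (Fin s) (Fin s) ℝ := fun τ =>
    Matrix.vandermonde fun i => (((τ i : ℕ) + 1 : ℕ) : ℝ)
  let nu : Fin (n * s + 1) → (Fin s → ℕ) := fun t j => ((t : ℕ) + 1) ^ (j : ℕ)
  refine ⟨Finset.univ.image nu, ∑ τ, ∑ j, ∑ i, |(V τ)⁻¹ j i|, ?_, ?_, ?_, ?_⟩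
  · exact Finset.sum_nonneg fun _ _ => Finset.sum_nonneg fun _ _ => Finset.sum_nonneg fun _ _ =>
      abs_nonneg _
  · exact ⟨nu 0, Finset.mem_image_of_mem _ (Finset.mem_univ _)⟩
  · intro ν hν
    obtain ⟨t, _, rfl⟩ := Finset.mem_image.mp hν
    left
    intro h0
    have h1 := congrFun h0 ⟨0, hs⟩
    simp [nu] at h1
  · intro x Y ε hε hY h
    have h1 : ∀ t : Fin (n * s + 1), ∃ y ∈ Y, |∑ j, (nu t j : ℝ) * (x j - y j)| ≤ ε := fun t =>
      h (nu t) (Finset.mem_image_of_mem _ (Finset.mem_univ _))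
    choose g hg hg' using h1
    obtain ⟨y, hy, hcard⟩ := Finset.exists_lt_card_fiber_of_mul_lt_card_of_maps_to
      (s := (Finset.univ : Finset (Fin (n * s + 1)))) (t := Y) (f := g) (n := s)
      (fun t _ => hg t) (by
        rw [Finset.card_univ, Fintype.card_fin]
        have := Nat.mul_le_mul_right s hY
        omega)
    refine ⟨y, hy, fun j => ?_⟩
    obtain ⟨em⟩ : Nonempty (Fin s ↪ {t // t ∈ Finset.univ.filter fun t => g t = y}) := by
      apply Function.Embedding.nonempty_of_card_le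
      rw [Fintype.card_fin, Fintype.card_coe]
      exact hcard.le
    let τ : Fin s → Fin (n * s + 1) := fun i => (em i).1
    have hτ : Function.Injective τ := fun a b hab => em.injective (Subtype.ext hab)
    have hgτ : ∀ i, g (τ i) = y := fun i => (Finset.mem_filter.mp (em i).2).2
    have hdet : IsUnit (V τ).det := by
      rw [isUnit_iff_ne_zero]
      apply Matrix.det_vandermonde_ne_zero_iff.mpr
      intro a b hab
      apply hτ
      have h2 : ((τ a : ℕ) + 1 : ℕ) = ((τ b : ℕ) + 1 : ℕ) := Nat.cast_injective (R := ℝ) hab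
      exact Fin.ext (by omega)
    have hinv : (V τ)⁻¹.mulVec ((V τ).mulVec fun j => x j - y j) = fun j => x j - y j := by
      rw [Matrix.mulVec_mulVec, Matrix.nonsing_inv_mul _ hdet, Matrix.one_mulVec]
    have hd : ∀ i, |((V τ).mulVec fun j => x j - y j) i| ≤ ε := by
      intro i
      have h3 := hg' (τ i)
      rw [hgτ i] at h3
      convert h3 using 2
      unfold Matrix.mulVec dotProduct
      refine Finset.sum_congr rfl fun j _ => ?_
      simp [V, nu, Matrix.vandermonde_apply]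
    have h4 : |x j - y j| ≤ ∑ i, |(V τ)⁻¹ j i| * ε := by
      have h5 : x j - y j = ∑ i, (V τ)⁻¹ j i * ((V τ).mulVec fun j => x j - y j) i :=
        (congrFun hinv j).symm
      rw [h5]
      refine (Finset.abs_sum_le_sum_abs _ _).trans (Finset.sum_le_sum fun i _ => ?_)
      rw [abs_mul]
      exact mul_le_mul_of_nonneg_left (hd i) (abs_nonneg _)
    rw [← Finset.sum_mul] at h4
    refine h4.trans (mul_le_mul_of_nonneg_right ?_ hε)
    calc ∑ i, |(V τ)⁻¹ j i| ≤ ∑ j, ∑ i, |(V τ)⁻¹ j i| :=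
          Finset.single_le_sum (f := fun j => ∑ i, |(V τ)⁻¹ j i|)
            (fun _ _ => Finset.sum_nonneg fun _ _ => abs_nonneg _) (Finset.mem_univ j)
      _ ≤ ∑ τ, ∑ j, ∑ i, |(V τ)⁻¹ j i| :=
          Finset.single_le_sum (f := fun τ => ∑ j, ∑ i, |(V τ)⁻¹ j i|)
            (fun _ _ => Finset.sum_nonneg fun _ _ => Finset.sum_nonneg fun _ _ => abs_nonneg _)
            (Finset.mem_univ τ)

end Pool.Agent.K3h51.UG
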