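import Pool.Agent.K3h53.UG.Stm2

/-!
# Project UG2 (helper53): brick RP, perturbation of absolute values of roots
-/

set_option autoImplicit false

open Polynomial

namespace Pool.Agent.K3h51.UG

open Pool.Agent.K3h53.UG

/-- a polynomial without roots in an annulus has a dominant coefficient -/
theorem dom {r δ : ℝ} (hr : 0 < r) (hδ : 0 < δ) (s : Multiset ℂ) :
    (∀ z ∈ s, ‖z‖ ≤ δ * r ∨ r ≤ δ * ‖z‖) → 2 ^ (Multiset.card s + 1) * δ ≤ 1 →
    ∃ m : ℕ, 0 < ‖((s.map fun z => X - C z).prod).coeff m‖ * r ^ m ∧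
      ∀ k : ℕ, k ≠ m → ‖((s.map fun z => X - C z).prod).coeff k‖ * r ^ k ≤
        (2 ^ (Multiset.card s + 1) - 2) * δ * (‖((s.map fun z => X - C z).prod).coeff m‖ * r ^ m) := by
  induction s using Multiset.induction_on with
  | empty =>
    intro _ _
    refine ⟨0, by simp, fun k hk => ?_⟩
    simp [coeff_one, hk]
  | cons z s ih =>
    intro hz hle
    rw [Multiset.card_cons] at hle
    have hle' : 2 ^ (Multiset.card s + 1) * δ ≤ 1 := by
      have : (2 : ℝ) ^ (Multiset.card s + 1 + 1) * δ = 2 * (2 ^ (Multiset.card s + 1) * δ) := by ring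
      have h0 : 0 < (2 : ℝ) ^ (Multiset.card s + 1) * δ := by positivity
      linarith
    obtain ⟨m, hm, hk⟩ := ih (fun w hw => hz w (Multiset.mem_cons_of_mem hw)) hle'
    rw [Multiset.map_cons, Multiset.prod_cons, Multiset.card_cons]
    set A := (s.map fun z => X - C z).prod with hA
    set u := ((2 : ℝ) ^ (Multiset.card s + 1) - 2) * δ with hu
    set a : ℕ → ℝ := fun k => ‖A.coeff k‖ * r ^ k with ha
    have ha0 : ∀ k, 0 ≤ a k := fun k => by positivity
    have hpow : (2 : ℝ) ≤ 2 ^ (Multiset.card s + 1) := by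
      calc (2 : ℝ) = 2 ^ 1 := by norm_num
        _ ≤ 2 ^ (Multiset.card s + 1) := pow_le_pow_right₀ (by norm_num) (by omega)
    have hu0 : 0 ≤ u := by
      rw [hu]
      exact mul_nonneg (by linarith) hδ.le
    have hδ2 : δ ≤ 1 / 4 := by
      have h4 : (4 : ℝ) ≤ 2 ^ (Multiset.card s + 1 + 1) := by
        rw [pow_succ]
        linarith
      nlinarith
    have hu1 : u ≤ 1 := by
      rw [hu]
      nlinarith
    have hu' : ((2 : ℝ) ^ (Multiset.card s + 1 + 1) - 2) * δ = 2 * (u + δ) := by
      rw [hu, pow_succ _ (Multiset.card s + 1)]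
      ring
    have hk' : ∀ k, a k ≤ a m := by
      intro k
      by_cases h : k = m
      · rw [h]
      · have h1 : a k ≤ u * a m := hk k h
        have h2 : u * a m ≤ 1 * a m := mul_le_mul_of_nonneg_right hu1 (ha0 m)
        linarith
    have hm0 : 0 < a m := hm
    -- the coefficients of the product
    have hB0 : ((X - C z) * A).coeff 0 = - (z * A.coeff 0) := by
      rw [sub_mul, coeff_sub, coeff_X_mul_zero, coeff_C_mul, zero_sub]
    have hB1 : ∀ k, ((X - C z) * A).coeff (k + 1) = A.coeff k - z * A.coeff (k + 1) := by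
      intro k
      rw [sub_mul, coeff_sub, coeff_X_mul, coeff_C_mul]
    have hb0 : ‖((X - C z) * A).coeff 0‖ * r ^ 0 = ‖z‖ * a 0 := by
      rw [hB0, norm_neg, norm_mul]
      simp only [ha]
      ring
    have hb1 : ∀ k, ‖((X - C z) * A).coeff (k + 1)‖ * r ^ (k + 1) ≤ r * a k + ‖z‖ * a (k + 1) := by
      intro k
      rw [hB1]
      have h1 := norm_sub_le (A.coeff k) (z * A.coeff (k + 1))
      rw [norm_mul] at h1
      have h2 := mul_le_mul_of_nonneg_right h1 (pow_pos hr (k + 1)).le
      refine h2.trans (le_of_eq ?_)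
      simp only [ha]
      ring
    have hb2 : ∀ k, r * a k - ‖z‖ * a (k + 1) ≤ ‖((X - C z) * A).coeff (k + 1)‖ * r ^ (k + 1) := by
      intro k
      rw [hB1]
      have h1 := norm_sub_norm_le (A.coeff k) (z * A.coeff (k + 1))
      rw [norm_mul] at h1
      have h2 := mul_le_mul_of_nonneg_right h1 (pow_pos hr (k + 1)).le
      refine le_trans (le_of_eq ?_) h2
      simp only [ha]
      ring
    have hb3 : ∀ k, ‖z‖ * a (k + 1) - r * a k ≤ ‖((X - C z) * A).coeff (k + 1)‖ * r ^ (k + 1) := by
      intro k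
      rw [hB1]
      have h1 := norm_sub_norm_le (z * A.coeff (k + 1)) (A.coeff k)
      rw [norm_mul, norm_sub_rev] at h1
      have h2 := mul_le_mul_of_nonneg_right h1 (pow_pos hr (k + 1)).le
      refine le_trans (le_of_eq ?_) h2
      simp only [ha]
      ring
    rcases hz z (Multiset.mem_cons_self _ _) with hs | hl
    · -- a small root
      have hlow : r * a m * (1 / 2) ≤ ‖((X - C z) * A).coeff (m + 1)‖ * r ^ (m + 1) := by
        have h1 := hb2 m
        have h2 : ‖z‖ * a (m + 1) ≤ (δ * r) * a m :=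
          mul_le_mul hs (hk' _) (ha0 _) (by positivity)
        have h3 : (δ * r) * a m ≤ (1 / 4 * r) * a m := by
          apply mul_le_mul_of_nonneg_right _ (ha0 m)
          exact mul_le_mul_of_nonneg_right hδ2 hr.le
        nlinarith [mul_pos hr hm0]
      refine ⟨m + 1, lt_of_lt_of_le (by positivity) hlow, fun k hkm => ?_⟩
      have hup : ‖((X - C z) * A).coeff k‖ * r ^ k ≤ r * a m * (u + δ) := by
        rcases k with _ | k
        · rw [hb0]
          have h2 : ‖z‖ * a 0 ≤ (δ * r) * a m :=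
            mul_le_mul hs (hk' _) (ha0 _) (by positivity)
          nlinarith [mul_nonneg (mul_nonneg hr.le hm0.le) hu0]
        · have h1 := hb1 k
          have hkm' : k ≠ m := fun h => hkm (by rw [h])
          have h2 : ‖z‖ * a (k + 1) ≤ (δ * r) * a m :=
            mul_le_mul hs (hk' _) (ha0 _) (by positivity)
          have h3 : a k ≤ u * a m := hk k hkm'
          have h4 : r * a k ≤ r * (u * a m) := mul_le_mul_of_nonneg_left h3 hr.le
          linarith
      rw [hu']
      have h5 : r * a m * (u + δ) = 2 * (u + δ) * (r * a m * (1 / 2)) := by ring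
      rw [h5] at hup
      exact hup.trans (mul_le_mul_of_nonneg_left hlow (by linarith))
    · -- a large root
      have hz0 : 0 < ‖z‖ := by
        by_contra h
        push Not at h
        nlinarith [norm_nonneg z]
      have hlow : ‖z‖ * a m * (1 / 2) ≤ ‖((X - C z) * A).coeff m‖ * r ^ m := by
        rcases m with _ | m
        · rw [hb0]
          nlinarith [mul_pos hz0 hm0]
        · have h1 := hb3 m
          have h2 : r * a m ≤ (δ * ‖z‖) * a (m + 1) :=
            mul_le_mul hl (hk' _) (ha0 _) (by positivity)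
          have h3 : (δ * ‖z‖) * a (m + 1) ≤ (1 / 4 * ‖z‖) * a (m + 1) := by
            apply mul_le_mul_of_nonneg_right _ (ha0 _)
            exact mul_le_mul_of_nonneg_right hδ2 hz0.le
          nlinarith [mul_pos hz0 hm0]
      refine ⟨m, lt_of_lt_of_le (by positivity) hlow, fun k hkm => ?_⟩
      have hup : ‖((X - C z) * A).coeff k‖ * r ^ k ≤ ‖z‖ * a m * (u + δ) := by
        have h3 : a k ≤ u * a m := hk k hkm
        have h4 : ‖z‖ * a k ≤ ‖z‖ * (u * a m) := mul_le_mul_of_nonneg_left h3 hz0.le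
        rcases k with _ | k
        · rw [hb0]
          nlinarith [mul_nonneg (mul_nonneg hz0.le hm0.le) hδ.le]
        · have h1 := hb1 k
          have h2 : r * a k ≤ (δ * ‖z‖) * a m :=
            mul_le_mul hl (hk' _) (ha0 _) (by positivity)
          linarith
      rw [hu']
      have h5 : ‖z‖ * a m * (u + δ) = 2 * (u + δ) * (‖z‖ * a m * (1 / 2)) := by ring
      rw [h5] at hup
      exact hup.trans (mul_le_mul_of_nonneg_left hlow (by linarith))

theorem t_RP : S_RP := by
  intro n
  set K : ℝ := 2 ^ (n + 1) * (n + 2) with hK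
  have hK1 : 1 ≤ K := by
    have h1 : (1 : ℝ) ≤ 2 ^ (n + 1) := one_le_pow₀ (by norm_num)
    have h2 : (1 : ℝ) ≤ (n : ℝ) + 2 := by
      have : (0 : ℝ) ≤ n := Nat.cast_nonneg n
      linarith
    rw [hK]
    nlinarith
  have hlogK : 0 ≤ Real.log K := Real.log_nonneg hK1
  refine ⟨2 + Real.log K, by linarith, ?_⟩
  intro P Q η hη hP hsupp hP0 hlog t ht
  have ht0 : t ≠ 0 := by
    rintro rfl
    apply hP0
    rw [coeff_zero_eq_eval_zero]
    exact ht
  refine ⟨ht0, ?_⟩
  set r : ℝ := ‖t‖ with hr
  have hr0 : 0 < r := norm_pos_iff.mpr ht0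
  set δ : ℝ := Real.exp (-(2 * η)) / K with hδ
  have hKpos : 0 < K := by linarith
  have hδ0 : 0 < δ := by positivity
  by_cases hex : ∃ z : ℂ, Q.eval z = 0 ∧ δ * r < ‖z‖ ∧ δ * ‖z‖ < r
  · obtain ⟨z, hz, hz1, hz2⟩ := hex
    have hz0 : 0 < ‖z‖ := lt_trans (by positivity) hz1
    refine ⟨z, norm_pos_iff.mp hz0, hz, ?_⟩
    have h1 : Real.log (δ * r) < Real.log ‖z‖ := Real.log_lt_log (by positivity) hz1
    have h2 : Real.log (δ * ‖z‖) < Real.log r := Real.log_lt_log (by positivity) hz2
    rw [Real.log_mul hδ0.ne' hr0.ne'] at h1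
    rw [Real.log_mul hδ0.ne' hz0.ne'] at h2
    have h3 : Real.log δ = -(2 * η) - Real.log K := by
      rw [hδ, Real.log_div (Real.exp_pos _).ne' hKpos.ne', Real.log_exp]
    rw [h3] at h1 h2
    have h4 : 2 * η + Real.log K ≤ (2 + Real.log K) * (1 + η) := by nlinarith
    rw [abs_le]
    constructor <;> linarith
  · exfalso
    push Not at hex
    have hQ0 : Q ≠ 0 := by
      intro h
      rw [h, support_zero, support_eq_empty] at hsupp
      rw [hsupp] at hP0
      exact hP0 (coeff_zero 0)
    have hQn : Q.natDegree ≤ n := by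
      rw [natDegree_le_iff_coeff_eq_zero]
      intro k hk
      have h1 : P.coeff k = 0 := coeff_eq_zero_of_natDegree_lt (lt_of_le_of_lt hP hk)
      rw [← notMem_support_iff, ← hsupp, notMem_support_iff]
      exact h1
    have hroots : ∀ z ∈ Q.roots, ‖z‖ ≤ δ * r ∨ r ≤ δ * ‖z‖ := by
      intro z hz
      have h1 := (mem_roots hQ0).mp hz
      by_cases h2 : ‖z‖ ≤ δ * r
      · exact Or.inl h2
      · push Not at h2
        exact Or.inr (hex z h1 h2)
    have hcard : Multiset.card Q.roots ≤ n := (card_roots' Q).trans hQn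
    have hexp1 : Real.exp (-(2 * η)) ≤ 1 := by
      rw [Real.exp_le_one_iff]
      linarith
    have hδK : δ * K = Real.exp (-(2 * η)) := by
      rw [hδ]
      field_simp
    have h2n : (0 : ℝ) < 2 ^ (n + 1) := by positivity
    have hnn : (0 : ℝ) ≤ n := Nat.cast_nonneg n
    have hpw : (2 : ℝ) ^ (Multiset.card Q.roots + 1) ≤ 2 ^ (n + 1) :=
      pow_le_pow_right₀ (by norm_num) (by omega)
    have hle : 2 ^ (Multiset.card Q.roots + 1) * δ ≤ 1 := by
      have h1 : (2 : ℝ) ^ (n + 1) * δ ≤ δ * K := by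
        rw [hK]
        nlinarith [mul_pos h2n hδ0]
      have h2 : (2 : ℝ) ^ (Multiset.card Q.roots + 1) * δ ≤ 2 ^ (n + 1) * δ :=
        mul_le_mul_of_nonneg_right hpw hδ0.le
      linarith
    obtain ⟨m, hm, hk⟩ := dom hr0 hδ0 Q.roots hroots hle
    have hsplit : Q = C Q.leadingCoeff * (Q.roots.map fun z => X - C z).prod :=
      (IsAlgClosed.splits Q).eq_prod_roots
    set A := (Q.roots.map fun z => X - C z).prod with hA
    have hc0 : 0 < ‖Q.leadingCoeff‖ := norm_pos_iff.mpr (leadingCoeff_ne_zero.mpr hQ0)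
    have hcoef : ∀ k, ‖Q.coeff k‖ * r ^ k = ‖Q.leadingCoeff‖ * (‖A.coeff k‖ * r ^ k) := by
      intro k
      conv_lhs => rw [hsplit]
      rw [coeff_C_mul, norm_mul]
      ring
    have hQm : 0 < ‖Q.coeff m‖ * r ^ m := by
      rw [hcoef]
      positivity
    set v : ℝ := 2 ^ (n + 1) * δ with hv
    have hQk : ∀ k, k ≠ m → ‖Q.coeff k‖ * r ^ k ≤ v * (‖Q.coeff m‖ * r ^ m) := by
      intro k hkm
      rw [hcoef, hcoef]
      have h1 := hk k hkm
      have h2 : (2 ^ (Multiset.card Q.roots + 1) - 2) * δ * (‖A.coeff m‖ * r ^ m) ≤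
          v * (‖A.coeff m‖ * r ^ m) := by
        apply mul_le_mul_of_nonneg_right _ hm.le
        rw [hv]
        apply mul_le_mul_of_nonneg_right _ hδ0.le
        linarith
      have h3 := mul_le_mul_of_nonneg_left (h1.trans h2) hc0.le
      linarith
    have hmS : m ∈ P.support := by
      rw [hsupp, mem_support_iff]
      intro h
      rw [h] at hQm
      simp at hQm
    -- comparison of the coefficients
    have hcmp : ∀ k ∈ P.support, ‖P.coeff k‖ ≤ Real.exp η * ‖Q.coeff k‖ ∧
        ‖Q.coeff k‖ ≤ Real.exp η * ‖P.coeff k‖ := by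
      intro k hkS
      have h1 := hlog k hkS
      rw [abs_le] at h1
      have h2 : 0 < ‖P.coeff k‖ := norm_pos_iff.mpr (mem_support_iff.mp hkS)
      have h3 : 0 < ‖Q.coeff k‖ := norm_pos_iff.mpr (mem_support_iff.mp (hsupp ▸ hkS))
      constructor
      · rw [← Real.log_le_log_iff h2 (by positivity), Real.log_mul (Real.exp_pos _).ne' h3.ne',
          Real.log_exp]
        linarith
      · rw [← Real.log_le_log_iff h3 (by positivity), Real.log_mul (Real.exp_pos _).ne' h2.ne',
          Real.log_exp]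
        linarith
    have hsum : ‖P.coeff m‖ * r ^ m ≤ ∑ k ∈ P.support.erase m, ‖P.coeff k‖ * r ^ k := by
      have h1 : P.eval t = ∑ k ∈ P.support, P.coeff k * t ^ k := eval_eq_sum
      rw [ht, ← Finset.add_sum_erase _ _ hmS] at h1
      have h2 : P.coeff m * t ^ m = -∑ k ∈ P.support.erase m, P.coeff k * t ^ k := by
        linear_combination -h1
      have h3 : ‖P.coeff m‖ * r ^ m = ‖P.coeff m * t ^ m‖ := by rw [norm_mul, norm_pow]
      rw [h3, h2, norm_neg]
      refine (norm_sum_le _ _).trans (le_of_eq (Finset.sum_congr rfl fun k _ => ?_))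
      rw [norm_mul, norm_pow]
    have hexp0 : 0 < Real.exp η := Real.exp_pos η
    have hbound : ∀ k ∈ P.support.erase m, ‖P.coeff k‖ * r ^ k ≤
        Real.exp η * v * (‖Q.coeff m‖ * r ^ m) := by
      intro k hkS
      have h1 := (hcmp k (Finset.mem_of_mem_erase hkS)).1
      have h2 := hQk k (Finset.ne_of_mem_erase hkS)
      have h3 : ‖P.coeff k‖ * r ^ k ≤ Real.exp η * ‖Q.coeff k‖ * r ^ k :=
        mul_le_mul_of_nonneg_right h1 (pow_pos hr0 k).le
      have h4 := mul_le_mul_of_nonneg_left h2 hexp0.le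
      linarith
    have h5 := hsum.trans (Finset.sum_le_card_nsmul _ _ _ hbound)
    rw [nsmul_eq_mul] at h5
    have hcard2 : ((P.support.erase m).card : ℝ) ≤ n + 1 := by
      have h6 : P.support ⊆ Finset.range (n + 1) := by
        intro k hkS
        rw [Finset.mem_range]
        have := le_natDegree_of_mem_supp k hkS
        omega
      have h7 : (P.support.erase m).card ≤ n + 1 := by
        have h8 := Finset.card_le_card ((Finset.erase_subset m _).trans h6)
        rwa [Finset.card_range] at h8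
      exact_mod_cast h7
    have h8 := (hcmp m hmS).2
    have hv0 : 0 < v := by positivity
    have h9 : ‖Q.coeff m‖ * r ^ m ≤ Real.exp η * (‖P.coeff m‖ * r ^ m) := by
      have := mul_le_mul_of_nonneg_right h8 (pow_pos hr0 m).le
      linarith
    have h10 : ((P.support.erase m).card : ℝ) * (Real.exp η * v * (‖Q.coeff m‖ * r ^ m)) ≤
        (n + 1) * (Real.exp η * v * (‖Q.coeff m‖ * r ^ m)) :=
      mul_le_mul_of_nonneg_right hcard2 (by positivity)
    have h11 : ‖Q.coeff m‖ * r ^ m ≤
        Real.exp η * ((n + 1) * (Real.exp η * v * (‖Q.coeff m‖ * r ^ m))) :=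
      h9.trans (mul_le_mul_of_nonneg_left (h5.trans h10) hexp0.le)
    have h12 : Real.exp η * ((n + 1) * (Real.exp η * v * (‖Q.coeff m‖ * r ^ m))) =
        ((n + 1) / (n + 2)) * (‖Q.coeff m‖ * r ^ m) := by
      have h13 : Real.exp η * Real.exp η * Real.exp (-(2 * η)) = 1 := by
        rw [← Real.exp_add, ← Real.exp_add]
        have : η + η + -(2 * η) = 0 := by ring
        rw [this, Real.exp_zero]
      have h14 : v * (n + 2) = Real.exp (-(2 * η)) := by
        rw [hv, ← hδK, hK]
        ring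
      have h15 : (n : ℝ) + 2 ≠ 0 := by positivity
      rw [← h14] at h13
      have h17 : Real.exp η * Real.exp η * v = 1 / ((n : ℝ) + 2) := by
        rw [eq_div_iff h15]
        linarith
      have h18 : Real.exp η * ((n + 1) * (Real.exp η * v * (‖Q.coeff m‖ * r ^ m))) =
          ((n : ℝ) + 1) * (Real.exp η * Real.exp η * v) * (‖Q.coeff m‖ * r ^ m) := by ring
      rw [h18, h17]
      ring
    rw [h12] at h11
    have h16 : ((n : ℝ) + 1) / (n + 2) < 1 := by
      rw [div_lt_one (by positivity)]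
      linarith
    nlinarith

end Pool.Agent.K3h51.UG
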