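import Pool.Agent.K3h53.UG.Stm4
import Pool.Agent.K3h67.EX.Solve

/-! # UG project (helper53): brick BR (helper51) -/

set_option autoImplicit false

namespace Pool.Agent.K3h51.UG

open MvPolynomial Filter Topology Metric Set Pool.Agent.K3h22.EX Pool.Agent.K3h53.UG
open Pool.Agent.K3h67.EX (dlin dlin_apply hasStrict)

theorem eval_hom {n d : ℕ} {q : MvPolynomial (Fin n) ℂ} (hq : q.IsHomogeneous d) (c : ℂ)
    (z : Fin n → ℂ) : eval (fun i => c * z i) q = c ^ d * eval z q := by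
  rw [eval_eq', eval_eq', Finset.mul_sum]
  refine Finset.sum_congr rfl fun m hm => ?_
  have h1 := hq (mem_support_iff.1 hm)
  have h0 : Finsupp.weight (1 : Fin n → ℕ) m = ∑ i, m i := by
    rw [Finsupp.weight_apply, Finsupp.sum_fintype]
    · simp
    · intro i
      exact zero_smul ℕ _
  rw [h0] at h1
  have h2 : ∏ i, (c * z i) ^ m i = c ^ d * ∏ i, z i ^ m i := by
    rw [← h1, ← Finset.prod_pow_eq_pow_sum, ← Finset.prod_mul_distrib]
    exact Finset.prod_congr rfl fun i _ => mul_pow _ _ _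
  rw [h2]
  ring

theorem contDiff_eval {n : ℕ} (q : MvPolynomial (Fin n) ℂ) {E : Type*} [NormedAddCommGroup E]
    [NormedSpace ℂ E] (g : E → Fin n → ℂ) (hg : ∀ i, ContDiff ℂ 1 (fun x => g x i)) :
    ContDiff ℂ 1 (fun x => eval (g x) q) := by
  induction q using MvPolynomial.induction_on with
  | C a =>
    simp only [eval_C]
    exact contDiff_const
  | add p q hp hq =>
    simp only [map_add]
    exact hp.add hq
  | mul_X p i hp =>
    simp only [map_mul, eval_X]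
    exact hp.mul (hg i)

theorem xp_self {s : ℕ} (k : Fin (s + 1)) (u : Fin (s + 1) → ℝ) (l : Fin s → ℂ) (t : ℂ) :
    xp k u l t k = ((u k : ℝ) : ℂ) * t := by
  unfold xp
  rw [Fin.insertNth_apply_same, zero_add]

theorem xp_succ {s : ℕ} (k : Fin (s + 1)) (u : Fin (s + 1) → ℝ) (l : Fin s → ℂ) (t : ℂ)
    (j : Fin s) : xp k u l t (k.succAbove j) = l j + ((u (k.succAbove j) : ℝ) : ℂ) * t := by
  unfold xp
  rw [Fin.insertNth_apply_succAbove]

theorem xp_scale {s : ℕ} (k : Fin (s + 1)) (u : Fin (s + 1) → ℝ) (l : Fin s → ℂ) (t : ℂ) (c : ℂ) :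
    xp k u (fun j => c * l j) (c * t) = fun i => c * xp k u l t i := by
  funext i
  rcases Fin.eq_self_or_eq_succAbove k i with rfl | ⟨j, rfl⟩
  · rw [xp_self, xp_self]
    ring
  · rw [xp_succ, xp_succ]
    ring

theorem contDiff_xp {s : ℕ} (k : Fin (s + 1)) (u : Fin (s + 1) → ℝ) (i : Fin (s + 1)) :
    ContDiff ℂ 1 (fun x : (ℂ × (Fin s → ℂ)) × ℂ => xp k u x.1.2 x.2 i) := by
  rcases Fin.eq_self_or_eq_succAbove k i with rfl | ⟨j, rfl⟩
  · simp only [xp_self]
    exact contDiff_const.mul contDiff_snd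
  · simp only [xp_succ]
    apply ContDiff.add
    · exact (contDiff_apply ℂ ℂ j).comp (contDiff_snd.comp contDiff_fst)
    · exact contDiff_const.mul contDiff_snd

/-- the homogenized polynomial -/
noncomputable def Gam {s : ℕ} (F : MvPolynomial (Fin (s + 1)) ℂ) (k : Fin (s + 1))
    (u : Fin (s + 1) → ℝ) (x : (ℂ × (Fin s → ℂ)) × ℂ) : ℂ :=
  ∑ i ∈ Finset.range (F.totalDegree + 1), x.1.1 ^ (F.totalDegree - i) *
    eval (xp k u x.1.2 x.2) (homogeneousComponent i F)

theorem Gam_contDiff {s : ℕ} (F : MvPolynomial (Fin (s + 1)) ℂ) (k : Fin (s + 1))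
    (u : Fin (s + 1) → ℝ) : ContDiff ℂ 1 (Gam F k u) := by
  unfold Gam
  apply ContDiff.sum
  intro i _
  apply ContDiff.mul
  · exact (contDiff_fst.comp contDiff_fst).pow _
  · exact contDiff_eval _ _ (contDiff_xp k u)

theorem Gam_zero {s : ℕ} (F : MvPolynomial (Fin (s + 1)) ℂ) (k : Fin (s + 1))
    (u : Fin (s + 1) → ℝ) (l : Fin s → ℂ) (t : ℂ) :
    Gam F k u ((0, l), t) = eval (xp k u l t) (top F) := by
  unfold Gam
  rw [Finset.sum_range_succ, Finset.sum_eq_zero]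
  · rw [Nat.sub_self, pow_zero, one_mul, zero_add]
    rfl
  · intro i hi
    rw [Finset.mem_range] at hi
    rw [zero_pow (by omega), zero_mul]

theorem Gam_scale {s : ℕ} (F : MvPolynomial (Fin (s + 1)) ℂ) (k : Fin (s + 1))
    (u : Fin (s + 1) → ℝ) (l : Fin s → ℂ) (t : ℂ) (R : ℂ) (hR : R ≠ 0) :
    eval (xp k u (fun j => R * l j) (R * t)) F =
      R ^ F.totalDegree * Gam F k u ((R⁻¹, l), t) := by
  unfold Gam
  conv_lhs => rw [← sum_homogeneousComponent F]
  rw [map_sum, Finset.mul_sum]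
  refine Finset.sum_congr rfl fun i hi => ?_
  rw [Finset.mem_range] at hi
  rw [xp_scale, eval_hom (homogeneousComponent_isHomogeneous i F), ← mul_assoc]
  congr 1
  have h1 : F.totalDegree = i + (F.totalDegree - i) := by omega
  conv_rhs => rw [h1]
  rw [Nat.add_sub_cancel_left, pow_add, mul_assoc, ← mul_pow, mul_inv_cancel₀ hR, one_pow, mul_one]

theorem eval_dd {n : ℕ} (v : Fin n → ℂ) (q : MvPolynomial (Fin n) ℂ) (z : Fin n → ℂ) :
    eval z (dd v q) = dlin q z v := by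
  unfold dd
  rw [dlin_apply, map_sum]
  refine Finset.sum_congr rfl fun j _ => ?_
  rw [map_mul, eval_C]
  ring

theorem deriv_xp {s : ℕ} (q : MvPolynomial (Fin (s + 1)) ℂ) (k : Fin (s + 1))
    (u : Fin (s + 1) → ℝ) (l : Fin s → ℂ) (t : ℂ) :
    HasDerivAt (fun t => eval (xp k u l t) q)
      (eval (xp k u l t) (dd (fun i => ((u i : ℝ) : ℂ)) q)) t := by
  rw [eval_dd]
  have h1 : HasDerivAt (fun t => xp k u l t) (fun i => ((u i : ℝ) : ℂ)) t := by
    rw [hasDerivAt_pi]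
    intro i
    unfold xp
    have := ((hasDerivAt_id t).const_mul ((u i : ℝ) : ℂ)).const_add
      ((k.insertNth (0 : ℂ) l : Fin (s + 1) → ℂ) i)
    simpa using this
  exact (hasStrict q (xp k u l t)).hasFDerivAt.comp_hasDerivAt t h1

theorem t_BR : S_BR := by
  intro s F k u lam θ h0 h1
  have hcd : ContDiffAt ℂ 1 (Gam F k u) ((0, lam), θ) := (Gam_contDiff F k u).contDiffAt
  set c : ℂ := eval (xp k u lam θ) (dd (fun i => ((u i : ℝ) : ℂ)) (top F)) with hc
  have hcomp : HasDerivAt (fun t => Gam F k u ((0, lam), t))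
      ((fderiv ℂ (Gam F k u) ((0, lam), θ) ∘L .inr ℂ (ℂ × (Fin s → ℂ)) ℂ) 1) θ := by
    have h2 : HasFDerivAt (fun t : ℂ => (((0 : ℂ), lam), t))
        (ContinuousLinearMap.inr ℂ (ℂ × (Fin s → ℂ)) ℂ) θ := hasFDerivAt_prodMk_right _ _
    have h3 := (hcd.differentiableAt one_ne_zero).hasFDerivAt.comp θ h2
    exact h3.hasDerivAt
  have hcomp' : HasDerivAt (fun t => Gam F k u ((0, lam), t)) c θ := by
    simp only [Gam_zero]
    exact deriv_xp (top F) k u lam θ
  have hval : (fderiv ℂ (Gam F k u) ((0, lam), θ) ∘L .inr ℂ (ℂ × (Fin s → ℂ)) ℂ) 1 = c :=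
    hcomp.unique hcomp'
  have hinv : (fderiv ℂ (Gam F k u) ((0, lam), θ) ∘L .inr ℂ (ℂ × (Fin s → ℂ)) ℂ).IsInvertible := by
    refine ⟨ContinuousLinearEquiv.unitsEquivAut ℂ (Units.mk0 c h1), ?_⟩
    ext
    rw [hval]
    simp
  set Ψ := hcd.implicitFunction one_ne_zero hinv with hΨ
  have e1 : Ψ (0, lam) = θ := hcd.implicitFunction_apply_self one_ne_zero hinv
  have e2 : ∀ᶠ x in 𝓝 ((0 : ℂ), lam), Gam F k u (x, Ψ x) = 0 := by
    have := hcd.eventually_apply_implicitFunction one_ne_zero hinv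
    rw [Gam_zero, h0] at this
    exact this
  have e3 : ContDiffAt ℂ 1 Ψ (0, lam) := hcd.contDiffAt_implicitFunction one_ne_zero hinv
  have e4 : ∀ᶠ x in 𝓝 ((0 : ℂ), lam), ContDiffAt ℂ 1 Ψ x := e3.eventually (by simp)
  obtain ⟨K, S, hS, hK⟩ := e3.exists_lipschitzOnWith
  have e5 : ∀ᶠ x in 𝓝 ((0 : ℂ), lam), ‖Ψ x - θ‖ < 1 / 4 := by
    have h2 := e3.continuousAt.tendsto
    rw [e1] at h2
    have h3 := h2.eventually (ball_mem_nhds θ (show (0 : ℝ) < 1 / 4 by norm_num))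
    filter_upwards [h3] with x hx
    rwa [dist_eq_norm] at hx
  obtain ⟨ρ, hρ, hball⟩ := Metric.eventually_nhds_iff_ball.1
    (e2.and (e4.and (e5.and (eventually_mem_set.2 hS))))
  refine ⟨ρ, K, 2 / ρ + 1, hρ, K.2, by
    have : 0 < 2 / ρ := by positivity
    linarith, ?_⟩
  intro R hR
  have hρ2 : 0 < 2 / ρ := by positivity
  have hR1 : 1 ≤ R := by linarith
  have hRpos : 0 < R := by linarith
  have hRc : (R : ℂ) ≠ 0 := by exact_mod_cast hRpos.ne'
  have hRinv : ‖((R : ℂ))⁻¹‖ < ρ := by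
    rw [norm_inv, Complex.norm_real, Real.norm_of_nonneg hRpos.le, inv_lt_comm₀ hRpos hρ]
    have : ρ⁻¹ ≤ 2 / ρ := by
      rw [inv_eq_one_div]
      exact div_le_div_of_nonneg_right (by norm_num) hρ.le
    linarith
  have hx : ∀ l ∈ ball (sc R lam) (ρ * R), ((R : ℂ)⁻¹, fun j => (R : ℂ)⁻¹ * l j) ∈
      ball ((0 : ℂ), lam) ρ := by
    intro l hl
    rw [mem_ball, dist_eq_norm] at hl ⊢
    rw [Prod.norm_def, max_lt_iff]
    constructor
    · simp only [Prod.fst_sub, sub_zero]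
      exact hRinv
    · simp only [Prod.snd_sub]
      have h2 : ((fun j => (R : ℂ)⁻¹ * l j) - lam) = (R : ℂ)⁻¹ • (l - sc R lam) := by
        funext j
        simp only [Pi.sub_apply, Pi.smul_apply, sc, smul_eq_mul]
        field_simp
      rw [h2, norm_smul, norm_inv, Complex.norm_real, Real.norm_of_nonneg hRpos.le,
        inv_mul_lt_iff₀ hRpos]
      linarith
  have hx0 : ((R : ℂ)⁻¹, fun j => (R : ℂ)⁻¹ * (sc R lam) j) = ((R : ℂ)⁻¹, lam) := by
    congr 1
    funext j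
    simp only [sc]
    field_simp
  refine ⟨fun l => R * Ψ ((R : ℂ)⁻¹, fun j => (R : ℂ)⁻¹ * l j), ?_, ?_, ?_⟩
  · intro l hl
    obtain ⟨-, q2, -⟩ := hball _ (hx l hl)
    apply DifferentiableAt.differentiableWithinAt
    apply DifferentiableAt.const_mul
    have h2 : DifferentiableAt ℂ (fun l : Fin s → ℂ => ((R : ℂ)⁻¹, fun j => (R : ℂ)⁻¹ * l j)) l := by
      apply DifferentiableAt.prodMk
      · exact differentiableAt_const _
      · rw [differentiableAt_pi]
        intro j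
        exact (differentiableAt_apply j l).const_mul _
    exact (q2.differentiableAt one_ne_zero).comp l h2
  · intro l hl
    obtain ⟨q1, -, q3, -⟩ := hball _ (hx l hl)
    constructor
    · have h2 := Gam_scale F k u (fun j => (R : ℂ)⁻¹ * l j)
        (Ψ ((R : ℂ)⁻¹, fun j => (R : ℂ)⁻¹ * l j)) R hRc
      rw [q1, mul_zero] at h2
      have h3 : (fun j => (R : ℂ) * ((R : ℂ)⁻¹ * l j)) = l := by
        funext j
        field_simp
      rw [h3] at h2
      exact h2
    · rw [← mul_sub, norm_mul, Complex.norm_real, Real.norm_of_nonneg hRpos.le]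
      nlinarith
  · obtain ⟨-, -, -, q4⟩ := hball _ (hx (sc R lam) (mem_ball_self (by positivity)))
    obtain ⟨-, -, -, q5⟩ := hball ((0 : ℂ), lam) (mem_ball_self hρ)
    have h2 := hK.dist_le_mul _ q4 _ q5
    change ‖(R : ℂ) * Ψ ((R : ℂ)⁻¹, fun j => (R : ℂ)⁻¹ * sc R lam j) - R * θ‖ ≤ K
    rw [hx0] at h2 ⊢
    rw [e1, dist_eq_norm, dist_eq_norm] at h2
    have h3 : (((R : ℂ)⁻¹, lam) - ((0 : ℂ), lam)) = ((R : ℂ)⁻¹, 0) := by
      rw [Prod.mk_sub_mk, sub_zero, sub_self]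
    rw [h3, Prod.norm_def, norm_zero, max_eq_left (norm_nonneg _), norm_inv, Complex.norm_real,
      Real.norm_of_nonneg hRpos.le] at h2
    rw [← mul_sub, norm_mul, Complex.norm_real, Real.norm_of_nonneg hRpos.le]
    have h4 := mul_le_mul_of_nonneg_left h2 hRpos.le
    have h5 : R * (K * R⁻¹) = K := by field_simp
    linarith

end Pool.Agent.K3h51.UG
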