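import Pool.Agent.K3h53.UG.Stm4

/-! # UG project (helper53): bricks SOL4 and DOM4 (helper51) -/

set_option autoImplicit false

namespace Pool.Agent.K3h51.UG

open MvPolynomial Filter Topology Metric Set Pool.Agent.K3h22.EX Pool.Agent.K3h53.UG

theorem log_small (κ : ℝ) (hκ : 0 < κ) : ∃ R₀ : ℝ, 1 ≤ R₀ ∧ ∀ R, R₀ ≤ R →
    1 + Real.log R ≤ κ * R := by
  have h1 : Tendsto (fun R : ℝ => 1 / R + Real.log R / R) atTop (𝓝 (0 + 0)) := by
    apply Tendsto.add
    · exact tendsto_const_nhds.div_atTop tendsto_id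
    · exact Real.isLittleO_log_id_atTop.tendsto_div_nhds_zero
  rw [add_zero] at h1
  obtain ⟨R₁, h⟩ := eventually_atTop.1 (h1.eventually (gt_mem_nhds hκ))
  refine ⟨max R₁ 1, le_max_right _ _, fun R hR => ?_⟩
  have hR1 : 1 ≤ R := (le_max_right _ _).trans hR
  have h2 := h R ((le_max_left _ _).trans hR)
  rw [← add_div, div_lt_iff₀ (by linarith)] at h2
  exact h2.le

theorem t_SOL4 : S_BC → S_SOL4 := by
  intro hBC s lam hlam ε C hε
  have hpi := Real.pi_pos
  have hpi3 := Real.pi_gt_three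
  set D : ℝ := |C| + 2 * Real.pi with hD
  have hDpos : 0 < D := by positivity
  have hCD : |C| + 1 ≤ D := by rw [hD]; linarith
  obtain ⟨R₀, hR₀1, hR₀⟩ := log_small (ε / (200 * D)) (by positivity)
  refine ⟨R₀, hR₀1, ?_⟩
  intro R hR M hM hMre
  have hR1 : 1 ≤ R := hR₀1.trans hR
  have hRpos : 0 < R := by linarith
  have hlog : 0 ≤ Real.log R := Real.log_nonneg hR1
  have hq : (1 + Real.log R) * (200 * D) ≤ ε * R := by
    have h1 := hR₀ R hR
    rw [div_mul_eq_mul_div, le_div_iff₀ (by positivity)] at h1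
    exact h1
  set z : Fin s → ℂ := sc R lam with hz
  set δ : ℝ := |C| * (1 + Real.log R) + 2 * Real.pi with hδ
  have hδpos : 0 < δ := by positivity
  have hδ' : δ ≤ D * (1 + Real.log R) := by
    rw [hδ, hD]
    nlinarith
  have hδR : 2 * δ < ε * R / 4 := by nlinarith
  have hsub : closedBall z (2 * δ) ⊆ ball z (ε * R / 4) := closedBall_subset_ball hδR
  have hlip : ∀ j, ∀ v ∈ ball z (ε * R / 4), ∀ w ∈ ball z (ε * R / 4),
      ‖M j v - M j w‖ ≤ 1 / 2 * ‖v - w‖ := by
    intro j v hv w hw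
    have h := hBC s z (ε * R) ((|C| + 1) * (1 + Real.log R)) (M j) (by positivity)
      (by positivity) (hM j) (by
        intro v hv
        refine (hMre j v hv).trans ?_
        have := le_abs_self C
        have h3 : 0 ≤ 1 + Real.log R := by linarith
        nlinarith) v hv w hw
    refine h.trans (mul_le_mul_of_nonneg_right ?_ (norm_nonneg _))
    rw [div_le_div_iff₀ (by positivity) (by norm_num)]
    have h3 : 0 ≤ 1 + Real.log R := by linarith
    nlinarith
  set N : Fin s → ℤ := fun j => round (R * (lam j).im / (2 * Real.pi)) with hN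
  set K : Fin s → ℤ := fun j => round ((M j z).im / (2 * Real.pi)) with hK
  set G : (Fin s → ℂ) → (Fin s → ℂ) := fun l j =>
    2 * Real.pi * Complex.I * (N j : ℂ) + M j l - 2 * Real.pi * Complex.I * (K j : ℂ) with hG
  have hround : ∀ x : ℝ, |2 * Real.pi * (round (x / (2 * Real.pi)) : ℝ) - x| ≤ Real.pi := by
    intro x
    have h1 := abs_sub_round (x / (2 * Real.pi))
    have h2 : 2 * Real.pi * (round (x / (2 * Real.pi)) : ℝ) - x =
        -(2 * Real.pi) * (x / (2 * Real.pi) - (round (x / (2 * Real.pi)) : ℝ)) := by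
      field_simp
      ring
    rw [h2, abs_mul, abs_neg, abs_of_pos (by positivity : (0 : ℝ) < 2 * Real.pi)]
    nlinarith
  have hGz : ‖G z - z‖ ≤ δ := by
    rw [pi_norm_le_iff_of_nonneg hδpos.le]
    intro j
    have hzj : z j = ((R * (lam j).im : ℝ) : ℂ) * Complex.I := by
      rw [hz]
      apply Complex.ext
      · simp [sc, hlam j]
      · simp [sc]
    have e1 : (G z - z) j = ((2 * Real.pi * (N j : ℝ) - R * (lam j).im : ℝ) : ℂ) * Complex.I +
        (((M j z).re : ℝ) : ℂ) -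
        ((2 * Real.pi * (K j : ℝ) - (M j z).im : ℝ) : ℂ) * Complex.I := by
      rw [Pi.sub_apply, hzj]
      simp only [hG]
      conv_lhs => rw [← Complex.re_add_im (M j z)]
      push_cast
      ring
    rw [e1]
    refine (norm_sub_le _ _).trans ((add_le_add (norm_add_le _ _) le_rfl).trans ?_)
    rw [norm_mul, norm_mul, Complex.norm_I, mul_one, mul_one, Complex.norm_real, Complex.norm_real,
      Complex.norm_real, Real.norm_eq_abs, Real.norm_eq_abs, Real.norm_eq_abs]
    have h1 := hround (R * (lam j).im)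
    have h2 := hround ((M j z).im)
    have h3 := hMre j z (mem_ball_self (by positivity))
    have h4 : C * (1 + Real.log R) ≤ |C| * (1 + Real.log R) :=
      mul_le_mul_of_nonneg_right (le_abs_self C) (by linarith)
    rw [hδ]
    simp only [hN, hK]
    linarith
  have hGlip : ∀ v ∈ closedBall z (2 * δ), ∀ w ∈ closedBall z (2 * δ),
      ‖G v - G w‖ ≤ 1 / 2 * ‖v - w‖ := by
    intro v hv w hw
    rw [pi_norm_le_iff_of_nonneg (by positivity)]
    intro j
    have e1 : (G v - G w) j = M j v - M j w := by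
      rw [Pi.sub_apply]
      simp only [hG]
      ring
    rw [e1]
    exact hlip j v (hsub hv) w (hsub hw)
  have hmaps : MapsTo G (closedBall z (2 * δ)) (closedBall z (2 * δ)) := by
    intro l hl
    rw [mem_closedBall, dist_eq_norm]
    have h1 := hGlip l hl z (mem_closedBall_self (by positivity))
    rw [mem_closedBall, dist_eq_norm] at hl
    have h2 : ‖G l - z‖ ≤ ‖G l - G z‖ + ‖G z - z‖ := norm_sub_le_norm_sub_add_norm_sub _ _ _
    linarith
  have hcon : ContractingWith (1 / 2 : NNReal) (hmaps.restrict G _ _) := by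
    refine ⟨by rw [← NNReal.coe_lt_coe]; norm_num, LipschitzWith.of_dist_le_mul fun x y => ?_⟩
    have h1 := hGlip x x.2 y y.2
    rw [Subtype.dist_eq, Subtype.dist_eq, dist_eq_norm, dist_eq_norm]
    have h2 : ((1 / 2 : NNReal) : ℝ) = 1 / 2 := by norm_num
    rw [h2]
    exact h1
  obtain ⟨l, hl, hfix, -⟩ := ContractingWith.exists_fixedPoint' (isClosed_closedBall.isComplete)
    hmaps hcon (mem_closedBall_self (by positivity)) (edist_ne_top z (G z))
  refine ⟨l, ball_subset_ball (by linarith) (hsub hl), fun j => ⟨N j - K j, ?_⟩⟩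
  have h1 : G l j = l j := congrFun hfix j
  simp only [hG] at h1
  push_cast
  linear_combination -h1

theorem t_DOM4 : S_DOM4 := by
  intro C h
  set B : ℝ := Real.log (2 * ((h : ℝ) + 1)) + 3 * |C| + 1 with hB
  have hlog2 : 0 ≤ Real.log (2 * ((h : ℝ) + 1)) := by
    apply Real.log_nonneg
    have : (0 : ℝ) ≤ h := Nat.cast_nonneg h
    linarith
  have hBpos : 0 < B := by
    have := abs_nonneg C
    rw [hB]
    linarith
  obtain ⟨R₀, hR₀1, hR₀⟩ := log_small (1 / (2 * B)) (by positivity)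
  refine ⟨|C| + 1, R₀, by positivity, hR₀1, ?_⟩
  intro R hR a Y hY hYR hah hai
  have hR1 : 1 ≤ R := hR₀1.trans hR
  have hlog : 0 ≤ Real.log R := Real.log_nonneg hR1
  have hahlog : |Real.log ‖a h‖| ≤ C * (1 + Real.log R) := by
    rcases hai h le_rfl with h1 | h1
    · exact absurd h1 hah
    · exact h1
  have hC : 0 ≤ C := by
    have h1 := (abs_nonneg _).trans hahlog
    by_contra hcon
    push Not at hcon
    nlinarith
  rw [abs_of_nonneg hC] at hB ⊢
  have hq : (1 + Real.log R) * (2 * B) ≤ R := by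
    have h1 := hR₀ R hR
    rw [one_div_mul_eq_div, le_div_iff₀ (by positivity)] at h1
    exact h1
  set A : ℝ := Real.exp (C * (1 + Real.log R)) with hA
  have hApos : 0 < A := Real.exp_pos _
  have hA1 : 1 ≤ A := Real.one_le_exp (by positivity)
  have hYpos : 0 < ‖Y‖ := norm_pos_iff.2 hY
  have hYbig : 2 * ((h : ℝ) + 1) * A ^ 2 ≤ ‖Y‖ := by
    rw [← Real.log_le_log_iff (by positivity) hYpos, Real.log_mul (by positivity) (by positivity),
      Real.log_pow, hA, Real.log_exp]
    push_cast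
    refine le_trans ?_ hYR
    have h1 : Real.log (2 * ((h : ℝ) + 1)) ≤ Real.log (2 * ((h : ℝ) + 1)) * (1 + Real.log R) :=
      le_mul_of_one_le_right hlog2 (by linarith)
    have h2 : C ≤ C * (1 + Real.log R) := le_mul_of_one_le_right hC (by linarith)
    nlinarith
  have hh0 : (0 : ℝ) ≤ h := Nat.cast_nonneg h
  have hY1 : 1 ≤ ‖Y‖ := by
    have : (1 : ℝ) ≤ A ^ 2 := one_le_pow₀ hA1
    nlinarith
  have hai' : ∀ i, i ≤ h → ‖a i‖ ≤ A := by
    intro i hi
    rcases hai i hi with h1 | h1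
    · rw [h1, norm_zero]
      exact hApos.le
    · by_cases h0 : a i = 0
      · rw [h0, norm_zero]
        exact hApos.le
      · rw [← Real.log_le_log_iff (norm_pos_iff.2 h0) hApos, hA, Real.log_exp]
        exact (le_abs_self _).trans h1
  have hahpos : 0 < ‖a h‖ := norm_pos_iff.2 hah
  have hah' : 1 ≤ A * ‖a h‖ := by
    rw [← Real.log_nonneg_iff (by positivity), Real.log_mul hApos.ne' hahpos.ne', hA,
      Real.log_exp]
    have := neg_abs_le (Real.log ‖a h‖)
    linarith
  set T : ℂ := ∑ i ∈ Finset.range h, a i * Y ^ i with hT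
  have hTY : ‖T‖ * ‖Y‖ ≤ h * A * ‖Y‖ ^ h := by
    calc ‖T‖ * ‖Y‖ ≤ (∑ i ∈ Finset.range h, ‖a i * Y ^ i‖) * ‖Y‖ :=
          mul_le_mul_of_nonneg_right (norm_sum_le _ _) hYpos.le
      _ = ∑ i ∈ Finset.range h, ‖a i‖ * (‖Y‖ ^ i * ‖Y‖) := by
          rw [Finset.sum_mul]
          refine Finset.sum_congr rfl fun i _ => ?_
          rw [norm_mul, norm_pow, mul_assoc]
      _ ≤ ∑ i ∈ Finset.range h, A * ‖Y‖ ^ h := by
          refine Finset.sum_le_sum fun i hi => ?_
          rw [Finset.mem_range] at hi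
          rw [← pow_succ]
          exact mul_le_mul (hai' i hi.le) (pow_le_pow_right₀ hY1 hi) (by positivity) hApos.le
      _ = h * A * ‖Y‖ ^ h := by
          rw [Finset.sum_const, Finset.card_range, nsmul_eq_mul, mul_assoc]
  set W : ℝ := ‖a h‖ * ‖Y‖ ^ h with hW
  have hWpos : 0 < W := by positivity
  have hYh : 0 < ‖Y‖ ^ h := by positivity
  have hTW : ‖T‖ ≤ W / 2 := by
    have h1 : ‖T‖ * (2 * ((h : ℝ) + 1) * A ^ 2) ≤ ‖T‖ * ‖Y‖ :=
      mul_le_mul_of_nonneg_left hYbig (norm_nonneg _)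
    have h2 : (h : ℝ) * A * ‖Y‖ ^ h ≤ ((h : ℝ) + 1) * A * ‖Y‖ ^ h := by
      have : 0 < A * ‖Y‖ ^ h := by positivity
      nlinarith
    have h3 : ‖T‖ * (2 * ((h : ℝ) + 1) * A ^ 2) ≤ ((h : ℝ) + 1) * A * ‖Y‖ ^ h :=
      (h1.trans hTY).trans h2
    have h4 : 2 * A * ‖T‖ ≤ ‖Y‖ ^ h := by
      have h5 : 0 < ((h : ℝ) + 1) * A := by positivity
      have h6 : ((h : ℝ) + 1) * A * (2 * A * ‖T‖) ≤ ((h : ℝ) + 1) * A * ‖Y‖ ^ h := by
        nlinarith
      exact le_of_mul_le_mul_left h6 h5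
    have h5 : ‖Y‖ ^ h ≤ A * ‖a h‖ * ‖Y‖ ^ h := le_mul_of_one_le_left hYh.le hah'
    have h6 : A * (2 * ‖T‖) ≤ A * W := by
      rw [hW]
      nlinarith
    have h7 := le_of_mul_le_mul_left h6 hApos
    linarith
  have hS : ∑ i ∈ Finset.range (h + 1), a i * Y ^ i = T + a h * Y ^ h := by
    rw [Finset.sum_range_succ]
  have hWn : ‖a h * Y ^ h‖ = W := by rw [norm_mul, norm_pow]
  have hlow : W / 2 ≤ ‖T + a h * Y ^ h‖ := by
    have h1 : ‖a h * Y ^ h‖ ≤ ‖T + a h * Y ^ h‖ + ‖T‖ := by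
      have := norm_sub_le (T + a h * Y ^ h) T
      rwa [add_sub_cancel_left] at this
    rw [hWn] at h1
    linarith
  have hup : ‖T + a h * Y ^ h‖ ≤ 2 * W := by
    have h1 := norm_add_le T (a h * Y ^ h)
    rw [hWn] at h1
    linarith
  rw [hS]
  have hpos : 0 < ‖T + a h * Y ^ h‖ := by linarith
  refine ⟨norm_pos_iff.1 hpos, ?_⟩
  have l1 : Real.log W - Real.log 2 ≤ Real.log ‖T + a h * Y ^ h‖ := by
    rw [← Real.log_div hWpos.ne' (by norm_num)]
    exact Real.log_le_log (by positivity) hlow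
  have l2 : Real.log ‖T + a h * Y ^ h‖ ≤ Real.log 2 + Real.log W := by
    rw [← Real.log_mul (by norm_num) hWpos.ne']
    exact Real.log_le_log hpos hup
  have l3 : Real.log W = Real.log ‖a h‖ + h * Real.log ‖Y‖ := by
    rw [hW, Real.log_mul hahpos.ne' hYh.ne', Real.log_pow]
  have l4 : Real.log 2 ≤ 1 := by
    have := Real.log_two_lt_d9
    linarith
  have l5 := abs_le.1 hahlog
  rw [l3] at l1 l2
  rw [abs_le]
  constructor <;> nlinarith [l5.1, l5.2]

end Pool.Agent.K3h51.UG
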